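import Pool.Agent.Helper60_AK.StmtF

set_option autoImplicit false

/-!
# AK module F1a, helper97: the functions F_k are smooth; Cauchy formula
-/

namespace Pool.Agent.AK.H97

open Complex Set Metric Filter Topology

/-! ### Smoothness of the frame -/

theorem contDiff_rc {ρ : C2 → ℝ} (h : ContDiff ℝ SM ρ) : ContDiff ℝ SM (rc ρ) :=
  Complex.ofRealCLM.contDiff.comp h

theorem contDiff_dz {ρ : C2 → ℂ} (h : ContDiff ℝ SM ρ) (j : Fin 2) : ContDiff ℝ SM (dz j ρ) := by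
  have h1 : ContDiff ℝ SM (fderiv ℝ ρ) := h.fderiv_right (by exact le_rfl)
  have h2 := h1.clm_apply (contDiff_const (c := (Pi.single j (1 : ℂ) : C2)))
  have h3 := h1.clm_apply (contDiff_const (c := (Pi.single j Complex.I : C2)))
  exact (h2.sub (h3.const_smul Complex.I)).const_smul (1 / 2 : ℂ)

theorem contDiff_dzb {ρ : C2 → ℂ} (h : ContDiff ℝ SM ρ) (j : Fin 2) :
    ContDiff ℝ SM (dzb j ρ) := by
  have h1 : ContDiff ℝ SM (fderiv ℝ ρ) := h.fderiv_right (by exact le_rfl)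
  have h2 := h1.clm_apply (contDiff_const (c := (Pi.single j (1 : ℂ) : C2)))
  have h3 := h1.clm_apply (contDiff_const (c := (Pi.single j Complex.I : C2)))
  exact (h2.add (h3.const_smul Complex.I)).const_smul (1 / 2 : ℂ)

theorem contDiff_rj {ρ : C2 → ℝ} (h : ContDiff ℝ SM ρ) (j : Fin 2) : ContDiff ℝ SM (rj ρ j) :=
  contDiff_dz (contDiff_rc h) j

theorem contDiff_rjb {ρ : C2 → ℝ} (h : ContDiff ℝ SM ρ) (j : Fin 2) : ContDiff ℝ SM (rjb ρ j) :=
  contDiff_dzb (contDiff_rc h) j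

theorem contDiff_g2 {ρ : C2 → ℝ} (h : ContDiff ℝ SM ρ) : ContDiff ℝ SM (g2 ρ) :=
  ((contDiff_rj h 0).mul (contDiff_rjb h 0)).add ((contDiff_rj h 1).mul (contDiff_rjb h 1))

theorem contDiff_tau {ρ : C2 → ℝ} (h : ContDiff ℝ SM ρ) : ContDiff ℝ SM (tau ρ) := by
  rw [contDiff_pi]
  intro i
  fin_cases i
  · exact contDiff_rj h 1
  · exact (contDiff_rj h 0).neg

theorem contDiffOn_nu {ρ : C2 → ℝ} (h : ContDiff ℝ SM ρ) :
    ContDiffOn ℝ SM (nu ρ) {p | g2 ρ p ≠ 0} := by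
  rw [contDiffOn_pi]
  intro i
  fin_cases i
  · exact ((contDiff_rjb h 0).neg.contDiffOn.mul
      ((contDiff_g2 h).contDiffOn.inv (fun p hp => hp))).congr (fun p _ => div_eq_mul_inv _ _)
  · exact ((contDiff_rjb h 1).neg.contDiffOn.mul
      ((contDiff_g2 h).contDiffOn.inv (fun p hp => hp))).congr (fun p _ => div_eq_mul_inv _ _)

theorem isOpen_g2 {ρ : C2 → ℝ} (h : ContDiff ℝ SM ρ) : IsOpen {p | g2 ρ p ≠ 0} :=
  isOpen_ne_fun (contDiff_g2 h).continuous continuous_const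

/-- the base point is a smooth function -/
theorem contDiffOn_base {ρ : C2 → ℝ} (h : ContDiff ℝ SM ρ) :
    ContDiffOn ℝ SM (fun x : C2 × ℝ => x.1 + (x.2 : ℂ) • nu ρ x.1) {x | g2 ρ x.1 ≠ 0} := by
  have h1 : ContDiffOn ℝ SM (fun x : C2 × ℝ => nu ρ x.1) {x | g2 ρ x.1 ≠ 0} :=
    (contDiffOn_nu h).comp contDiff_fst.contDiffOn (fun x hx => hx)
  have h2 : ContDiff ℝ SM (fun x : C2 × ℝ => ((x.2 : ℝ) : ℂ)) :=
    Complex.ofRealCLM.contDiff.comp contDiff_snd
  exact contDiff_fst.contDiffOn.add (h2.contDiffOn.smul h1)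

theorem isOpen_FDom {Ω : Set C2} {ρ : C2 → ℝ} (hΩ : IsOpen Ω) (h : ContDiff ℝ SM ρ) :
    IsOpen (FDom Ω ρ) := by
  have h1 : IsOpen {x : C2 × ℝ | g2 ρ x.1 ≠ 0} := (isOpen_g2 h).preimage continuous_fst
  exact (contDiffOn_base h).continuousOn.isOpen_inter_preimage h1 hΩ

/-! ### Directional derivatives -/

/-- the space of the arguments -/
abbrev W3 := C2 × C2 × ℂ

/-- the point `z + lam v` -/
noncomputable def pt (x : W3) : C2 := x.1 + x.2.2 • x.2.1

/-- the iterated derivatives with respect to the third argument -/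
noncomputable def Dit (f : C2 → ℂ) : ℕ → W3 → ℂ
  | 0 => fun x => f (pt x)
  | k + 1 => fun x => fderiv ℂ (Dit f k) x (0, 0, 1)

theorem contDiff_pt : ContDiff ℂ SM pt :=
  contDiff_fst.add ((contDiff_snd.comp contDiff_snd).smul (contDiff_fst.comp contDiff_snd))

theorem isOpen_W {Ω : Set C2} (hΩ : IsOpen Ω) : IsOpen (pt ⁻¹' Ω) :=
  hΩ.preimage contDiff_pt.continuous

theorem contDiffOn_Dit {Ω : Set C2} {f : C2 → ℂ} (hΩ : IsOpen Ω) (hf : ContDiffOn ℂ SM f Ω) :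
    ∀ k, ContDiffOn ℂ SM (Dit f k) (pt ⁻¹' Ω)
  | 0 => hf.comp contDiff_pt.contDiffOn (fun _ hx => hx)
  | k + 1 => ((contDiffOn_Dit hΩ hf k).fderiv_of_isOpen (isOpen_W hΩ) (by exact le_rfl)).clm_apply
      contDiffOn_const

theorem iteratedDeriv_eq {Ω : Set C2} {f : C2 → ℂ} (hΩ : IsOpen Ω) (hf : ContDiffOn ℂ SM f Ω)
    (z v : C2) : ∀ (k : ℕ) (lam : ℂ), z + lam • v ∈ Ω →
      iteratedDeriv k (fun l : ℂ => f (z + l • v)) lam = Dit f k (z, v, lam)
  | 0, lam, _ => by rw [iteratedDeriv_zero]; rfl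
  | k + 1, lam, h => by
    rw [iteratedDeriv_succ]
    have h1 : IsOpen {l : ℂ | z + l • v ∈ Ω} :=
      hΩ.preimage (by fun_prop : Continuous fun l : ℂ => z + l • v)
    have h2 : iteratedDeriv k (fun l : ℂ => f (z + l • v)) =ᶠ[𝓝 lam]
        fun l => Dit f k (z, v, l) := by
      filter_upwards [h1.mem_nhds h] with l hl
      exact iteratedDeriv_eq hΩ hf z v k l hl
    rw [h2.deriv_eq]
    have h3 : HasFDerivAt (Dit f k) (fderiv ℂ (Dit f k) (z, v, lam)) (z, v, lam) := by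
      have := (contDiffOn_Dit hΩ hf k).contDiffAt ((isOpen_W hΩ).mem_nhds (show pt (z, v, lam) ∈ Ω
        from h))
      exact (this.differentiableAt (by simp)).hasFDerivAt
    have h4 : HasDerivAt (fun l : ℂ => ((z, v, l) : W3)) (0, 0, 1) lam :=
      (hasDerivAt_const lam z).prodMk ((hasDerivAt_const lam v).prodMk (hasDerivAt_id lam))
    exact (h3.comp_hasDerivAt lam h4).deriv

/-- the Cauchy formula in one variable -/
theorem cauchy {g : ℂ → ℂ} {r : ℝ} (hr : 0 < r) (hg : DiffContOnCl ℂ g (ball 0 r)) (k : ℕ) :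
    iteratedDeriv k g 0 = (k.factorial : ℂ) / (2 * (Real.pi : ℂ) * (r : ℂ) ^ k) *
      ∫ θ in (0 : ℝ)..(2 * Real.pi), exp (-((k : ℂ) * θ * I)) * g ((r : ℂ) * exp ((θ : ℂ) * I)) := by
  have h1 := hg.circleIntegral_one_div_sub_center_pow_smul hr k
  have hr' : (r : ℂ) ≠ 0 := by exact_mod_cast hr.ne'
  have hk : (k.factorial : ℂ) ≠ 0 := by exact_mod_cast k.factorial_ne_zero
  have hpi : (Real.pi : ℂ) ≠ 0 := by exact_mod_cast Real.pi_ne_zero
  have h2 : (∮ z in C(0, r), (1 / (z - 0) ^ (k + 1)) • g z) = (I / (r : ℂ) ^ k) *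
      ∫ θ in (0 : ℝ)..(2 * Real.pi), exp (-((k : ℂ) * θ * I)) *
        g ((r : ℂ) * exp ((θ : ℂ) * I)) := by
    rw [circleIntegral, ← intervalIntegral.integral_const_mul]
    refine intervalIntegral.integral_congr (fun θ _ => ?_)
    simp only [deriv_circleMap, circleMap, zero_add, sub_zero, smul_eq_mul]
    have e1 : exp (-((k : ℂ) * θ * I)) = (exp ((θ : ℂ) * I) ^ k)⁻¹ := by
      rw [← Complex.exp_nat_mul, ← Complex.exp_neg]
      congr 2
      ring
    have e2 : exp ((θ : ℂ) * I) ≠ 0 := Complex.exp_ne_zero _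
    rw [e1]
    field_simp
    ring
  rw [h2, smul_eq_mul] at h1
  have h3 : iteratedDeriv k g 0 = (k.factorial : ℂ) / (2 * (Real.pi : ℂ) * I) *
      (2 * (Real.pi : ℂ) * I / k.factorial * iteratedDeriv k g 0) := by
    field_simp
  rw [h3, ← h1]
  have hI := Complex.I_ne_zero
  field_simp

theorem f1a (h0 : F0aStmt) : F1aStmt := by
  intro Ω ρ f hΩ hρ hf
  obtain ⟨hfs, -⟩ := h0 Ω f hΩ hf
  refine ⟨isOpen_FDom hΩ hρ, contDiffOn_nu hρ, contDiff_tau hρ, ?_, ?_⟩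
  · intro k
    have h1 : ContDiffOn ℝ SM (Dit f k) (pt ⁻¹' Ω) := (contDiffOn_Dit hΩ hfs k).restrict_scalars ℝ
    have h2 : ContDiffOn ℝ SM (fun x : C2 × ℝ => ((x.1 + (x.2 : ℂ) • nu ρ x.1, tau ρ x.1, 0) : W3))
        (FDom Ω ρ) :=
      ((contDiffOn_base hρ).mono (fun x hx => hx.1)).prodMk
        (((contDiff_tau hρ).comp contDiff_fst).contDiffOn.prodMk contDiffOn_const)
    have h3 : MapsTo (fun x : C2 × ℝ => ((x.1 + (x.2 : ℂ) • nu ρ x.1, tau ρ x.1, 0) : W3))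
        (FDom Ω ρ) (pt ⁻¹' Ω) := by
      intro x hx
      show _ + (0 : ℂ) • _ ∈ Ω
      rw [zero_smul, add_zero]
      exact hx.2
    refine (h1.comp h2 h3).congr (fun x hx => ?_)
    unfold Fk
    refine iteratedDeriv_eq hΩ hfs _ _ k 0 ?_
    rw [zero_smul, add_zero]
    exact hx.2
  · intro k p t r hr hr2
    unfold Fk
    refine cauchy hr ?_ k
    have h1 : DifferentiableOn ℂ (fun lam : ℂ => f (p + (t : ℂ) • nu ρ p + lam • tau ρ p))
        (closedBall 0 r) := by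
      refine hf.comp (by fun_prop) (fun lam hlam => ?_)
      exact hr2 lam (by simpa using hlam)
    exact (h1.mono closure_ball_subset_closedBall).diffContOnCl

end Pool.Agent.AK.H97
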