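import Pool.Agent.Helper97_AK.F1a

set_option autoImplicit false

/-!
# AK module F2, helper97: geometry of the collar
-/

namespace Pool.Agent.AK.H97

open Complex Set Metric Filter Topology

/-! ### The differential of rho in complex terms -/

theorem fderiv_rc {ρ : C2 → ℝ} {p : C2} (h : DifferentiableAt ℝ ρ p) (w : C2) :
    fderiv ℝ (rc ρ) p w = ((fderiv ℝ ρ p w : ℝ) : ℂ) := by
  have h1 : HasFDerivAt (rc ρ) (Complex.ofRealCLM.comp (fderiv ℝ ρ p)) p :=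
    Complex.ofRealCLM.hasFDerivAt.comp p h.hasFDerivAt
  rw [h1.fderiv]
  rfl

theorem rj_eq {ρ : C2 → ℝ} {p : C2} (h : DifferentiableAt ℝ ρ p) (j : Fin 2) :
    rj ρ j p = (1 / 2 : ℂ) * (((fderiv ℝ ρ p (Pi.single j 1) : ℝ) : ℂ) -
      Complex.I * ((fderiv ℝ ρ p (Pi.single j Complex.I) : ℝ) : ℂ)) := by
  unfold rj dz
  rw [fderiv_rc h, fderiv_rc h]
  rfl

theorem rjb_eq {ρ : C2 → ℝ} {p : C2} (h : DifferentiableAt ℝ ρ p) (j : Fin 2) :
    rjb ρ j p = (1 / 2 : ℂ) * (((fderiv ℝ ρ p (Pi.single j 1) : ℝ) : ℂ) +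
      Complex.I * ((fderiv ℝ ρ p (Pi.single j Complex.I) : ℝ) : ℂ)) := by
  unfold rjb dzb
  rw [fderiv_rc h, fderiv_rc h]
  rfl

theorem g2_eq {ρ : C2 → ℝ} {p : C2} (h : DifferentiableAt ℝ ρ p) :
    g2 ρ p = (((fderiv ℝ ρ p (Pi.single 0 1)) ^ 2 + (fderiv ℝ ρ p (Pi.single 0 Complex.I)) ^ 2 +
      (fderiv ℝ ρ p (Pi.single 1 1)) ^ 2 + (fderiv ℝ ρ p (Pi.single 1 Complex.I)) ^ 2) / 4 : ℝ) := by
  unfold g2
  rw [rj_eq h, rj_eq h, rjb_eq h, rjb_eq h]
  push_cast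
  ring_nf
  rw [Complex.I_sq]
  ring

theorem decomp (w : C2) : w = (w 0).re • (Pi.single 0 1 : C2) + (w 0).im • (Pi.single 0 Complex.I : C2)
    + ((w 1).re • (Pi.single 1 1 : C2) + (w 1).im • (Pi.single 1 Complex.I : C2)) := by
  funext i
  fin_cases i
  · simp [Complex.re_add_im]
  · simp [Complex.re_add_im]

theorem apply_eq {ρ : C2 → ℝ} {p : C2} (w : C2) : fderiv ℝ ρ p w =
    (w 0).re * fderiv ℝ ρ p (Pi.single 0 1) + (w 0).im * fderiv ℝ ρ p (Pi.single 0 Complex.I) +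
    ((w 1).re * fderiv ℝ ρ p (Pi.single 1 1) +
      (w 1).im * fderiv ℝ ρ p (Pi.single 1 Complex.I)) := by
  conv_lhs => rw [decomp w]
  simp only [map_add, map_smul, smul_eq_mul]

theorem g2_ne {ρ : C2 → ℝ} {p : C2} (h : DifferentiableAt ℝ ρ p) (h1 : fderiv ℝ ρ p ≠ 0) :
    g2 ρ p ≠ 0 := by
  intro h2
  rw [g2_eq h] at h2
  have h3 : ((fderiv ℝ ρ p (Pi.single 0 1)) ^ 2 + (fderiv ℝ ρ p (Pi.single 0 Complex.I)) ^ 2 +
      (fderiv ℝ ρ p (Pi.single 1 1)) ^ 2 + (fderiv ℝ ρ p (Pi.single 1 Complex.I)) ^ 2) / 4 = 0 := by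
    exact_mod_cast h2
  have a1 := sq_nonneg (fderiv ℝ ρ p (Pi.single 0 1))
  have a2 := sq_nonneg (fderiv ℝ ρ p (Pi.single 0 Complex.I))
  have a3 := sq_nonneg (fderiv ℝ ρ p (Pi.single 1 1))
  have a4 := sq_nonneg (fderiv ℝ ρ p (Pi.single 1 Complex.I))
  apply h1
  ext w
  rw [apply_eq w, pow_eq_zero_iff two_ne_zero |>.1 (by linarith :
    (fderiv ℝ ρ p (Pi.single 0 1)) ^ 2 = 0), pow_eq_zero_iff two_ne_zero |>.1 (by linarith :
    (fderiv ℝ ρ p (Pi.single 0 Complex.I)) ^ 2 = 0), pow_eq_zero_iff two_ne_zero |>.1 (by linarith :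
    (fderiv ℝ ρ p (Pi.single 1 1)) ^ 2 = 0), pow_eq_zero_iff two_ne_zero |>.1 (by linarith :
    (fderiv ℝ ρ p (Pi.single 1 Complex.I)) ^ 2 = 0)]
  simp

theorem apply_re {ρ : C2 → ℝ} {p : C2} (h : DifferentiableAt ℝ ρ p) (w : C2) :
    fderiv ℝ ρ p w = (2 * (rj ρ 0 p * w 0 + rj ρ 1 p * w 1)).re := by
  rw [apply_eq w, rj_eq h, rj_eq h]
  simp
  ring

/-- the differential on the frame -/
theorem apply_frame {ρ : C2 → ℝ} {p : C2} (h : DifferentiableAt ℝ ρ p) (h2 : g2 ρ p ≠ 0) (t : ℝ)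
    (lam : ℂ) : fderiv ℝ ρ p ((t : ℂ) • nu ρ p + lam • tau ρ p) = -2 * t := by
  rw [apply_re h]
  have e : 2 * (rj ρ 0 p * ((t : ℂ) • nu ρ p + lam • tau ρ p) 0 +
      rj ρ 1 p * ((t : ℂ) • nu ρ p + lam • tau ρ p) 1) = ((-2 * t : ℝ) : ℂ) := by
    have h3 : (rj ρ 0 p * rjb ρ 0 p + rj ρ 1 p * rjb ρ 1 p) = g2 ρ p := rfl
    simp only [Pi.add_apply, Pi.smul_apply, smul_eq_mul, nu, tau, Matrix.cons_val_zero,
      Matrix.cons_val_one]
    have h4 : 2 * (rj ρ 0 p * (↑t * (-rjb ρ 0 p / g2 ρ p) + lam * rj ρ 1 p) +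
        rj ρ 1 p * (↑t * (-rjb ρ 1 p / g2 ρ p) + lam * -rj ρ 0 p)) =
        -2 * t * ((rj ρ 0 p * rjb ρ 0 p + rj ρ 1 p * rjb ρ 1 p) / g2 ρ p) := by
      ring
    rw [h4, h3, div_self h2]
    push_cast
    ring
  rw [e, Complex.ofReal_re]

/-! ### The zero set is compact -/

theorem zero_closure {Ω : Set C2} {ρ : C2 → ℝ} (h : SmoothDom Ω ρ) : {p | ρ p = 0} ⊆ closure Ω := by
  intro p hp
  by_contra hcon
  have h1 : ∀ᶠ q in 𝓝 p, q ∉ Ω := by
    have := isClosed_closure.isOpen_compl.mem_nhds (show p ∈ (closure Ω)ᶜ from hcon)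
    filter_upwards [this] with q hq hq2
    exact hq (subset_closure hq2)
  have h2 : IsLocalMin ρ p := by
    filter_upwards [h1] with q hq
    rw [h.eq] at hq
    have h3 : ¬ ρ q < 0 := hq
    have h4 : ρ p = 0 := hp
    rw [h4]
    exact not_lt.1 h3
  exact h.grad p hp h2.fderiv_eq_zero

theorem zero_compact {Ω : Set C2} {ρ : C2 → ℝ} (h : SmoothDom Ω ρ) : IsCompact {p | ρ p = 0} := by
  have h1 : IsClosed {p | ρ p = 0} := isClosed_eq h.smooth.continuous continuous_const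
  exact (h.bdd.closure.isCompact_closure).of_isClosed_subset h1
    ((zero_closure h).trans subset_closure)

/-! ### Bounds -/

theorem exists_bound {f : C2 → ℝ} {K : Set C2} (hK : IsCompact K) (hf : ContinuousOn f K) :
    ∃ M : ℝ, 1 ≤ M ∧ ∀ x ∈ K, |f x| ≤ M := by
  obtain ⟨M, hM⟩ := hK.exists_bound_of_continuousOn hf
  exact ⟨max M 1, le_max_right _ _, fun x hx => (hM x hx).trans (le_max_left _ _)⟩

/-- Taylor estimate -/
theorem taylor {ρ : C2 → ℝ} (h : ContDiff ℝ SM ρ) {C R : ℝ}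
    (hC : ∀ x ∈ closedBall (0 : C2) R, ‖fderiv ℝ (fderiv ℝ ρ) x‖ ≤ C) {p w : C2}
    (hp : p ∈ closedBall (0 : C2) R) (hw : p + w ∈ closedBall (0 : C2) R) :
    |ρ (p + w) - ρ p - fderiv ℝ ρ p w| ≤ C * ‖w‖ * ‖w‖ := by
  have hd : Differentiable ℝ ρ := h.differentiable (by simp)
  have h1 : ContDiff ℝ SM (fderiv ℝ ρ) := h.fderiv_right (by exact le_rfl)
  have hd1 : Differentiable ℝ (fderiv ℝ ρ) := h1.differentiable (by simp)
  have hC0 : 0 ≤ C := le_trans (norm_nonneg (fderiv ℝ (fderiv ℝ ρ) p)) (hC p hp)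
  have hseg : segment ℝ p (p + w) ⊆ closedBall (0 : C2) R :=
    (convex_closedBall 0 R).segment_subset hp hw
  have h2 : ∀ x ∈ segment ℝ p (p + w), ‖fderiv ℝ ρ x - fderiv ℝ ρ p‖ ≤ C * ‖w‖ := by
    intro x hx
    have h3 := (convex_closedBall (0 : C2) R).norm_image_sub_le_of_norm_fderiv_le (𝕜 := ℝ)
      (f := fderiv ℝ ρ) (fun y _ => hd1 y) hC hp (hseg hx)
    refine h3.trans (mul_le_mul_of_nonneg_left ?_ hC0)
    obtain ⟨a, b, ha, hb, hab, rfl⟩ := hx
    have e : a • p + b • (p + w) - p = b • w := by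
      have : a = 1 - b := by linarith
      rw [this]
      module
    rw [e, norm_smul, Real.norm_eq_abs, abs_of_nonneg hb]
    exact mul_le_of_le_one_left (norm_nonneg _) (by linarith)
  have h4 := (convex_segment p (p + w)).norm_image_sub_le_of_norm_fderiv_le' (𝕜 := ℝ)
    (f := ρ) (φ := fderiv ℝ ρ p) (fun y _ => hd y) h2 (left_mem_segment ℝ _ _)
    (right_mem_segment ℝ _ _)
  rw [add_sub_cancel_left, Real.norm_eq_abs] at h4
  exact h4

theorem f2 : F2Stmt := by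
  intro Ω ρ h U hU hZU
  have hs := h.smooth
  have hd : Differentiable ℝ ρ := hs.differentiable (by simp)
  have h1 : ContDiff ℝ SM (fderiv ℝ ρ) := hs.fderiv_right (by exact le_rfl)
  have h2 : ContDiff ℝ SM (fderiv ℝ (fderiv ℝ ρ)) := h1.fderiv_right (by exact le_rfl)
  have hU2 : IsOpen (U ∩ {p | g2 ρ p ≠ 0}) := hU.inter (isOpen_g2 hs)
  have hZ2 : {p | ρ p = 0} ⊆ U ∩ {p | g2 ρ p ≠ 0} := fun p hp =>
    ⟨hZU hp, g2_ne (hd p) (h.grad p hp)⟩
  obtain ⟨V, hV, hZV, hVU, hVc⟩ := exists_open_between_and_isCompact_closure (zero_compact h) hU2 hZ2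
  -- constants
  have hnu : ContinuousOn (nu ρ) (closure V) :=
    (contDiffOn_nu hs).continuousOn.mono (fun p hp => (hVU hp).2)
  have htau : ContinuousOn (tau ρ) (closure V) := (contDiff_tau hs).continuous.continuousOn
  obtain ⟨M1, hM1, hM1'⟩ := exists_bound hVc hnu.norm
  obtain ⟨M2, hM2, hM2'⟩ := exists_bound hVc htau.norm
  obtain ⟨S, hS, hS'⟩ := exists_bound hVc hs.continuous.continuousOn
  obtain ⟨R0, hR0, hR0'⟩ := exists_bound hVc continuous_norm.continuousOn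
  simp only [abs_norm] at hM1' hM2' hR0'
  set M := max M1 M2 with hMdef
  have hM : 1 ≤ M := hM1.trans (le_max_left _ _)
  set R := R0 + 2 * M + 1 with hRdef
  have hK : IsCompact (closedBall (0 : C2) R) := isCompact_closedBall _ _
  obtain ⟨L, hL, hL'⟩ := exists_bound hK (f := fun x => ‖fderiv ℝ ρ x‖)
    h1.continuous.norm.continuousOn
  have hcn : Continuous (fun x => ‖fderiv ℝ (fderiv ℝ ρ) x‖) :=
    (continuous_norm (E := C2 →L[ℝ] C2 →L[ℝ] ℝ)).comp h2.continuous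
  obtain ⟨C, hC, hC0'⟩ := exists_bound hK (f := fun x => ‖fderiv ℝ (fderiv ℝ ρ) x‖)
    hcn.continuousOn
  simp only [abs_norm] at hL'
  have hC' : ∀ x ∈ closedBall (0 : C2) R, ‖fderiv ℝ (fderiv ℝ ρ) x‖ ≤ C :=
    fun x hx => (le_abs_self _).trans (hC0' x hx)
  have hMpos : 0 < M := by linarith
  have hlip : ∀ x ∈ closedBall (0 : C2) R, ∀ y ∈ closedBall (0 : C2) R,
      |ρ y - ρ x| ≤ L * ‖y - x‖ := fun x hx y hy =>
    (convex_closedBall (0 : C2) R).norm_image_sub_le_of_norm_fderiv_le (𝕜 := ℝ)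
      (f := ρ) (fun y _ => hd y) hL' hx hy
  have hCM : 1 ≤ C * M ^ 2 := by nlinarith
  have hLS : 1 ≤ L * S := by nlinarith
  set t0 := 1 / (8 * (C * M ^ 2)) with ht0
  set c2 := 1 / (8 * (C * M ^ 2) * (L * S)) with hc2
  have ht0pos : 0 < t0 := by positivity
  have hc2pos : 0 < c2 := by positivity
  have ht0le : t0 ≤ 1 := by
    rw [ht0, div_le_one (by positivity)]
    linarith
  have ht0C : t0 * (C * M ^ 2) = 1 / 8 := by
    rw [ht0]
    field_simp
  have hc2t : c2 * (L * S) = t0 := by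
    rw [hc2, ht0]
    field_simp
  have hc2le' : c2 ≤ t0 := by
    rw [← hc2t]
    exact le_mul_of_one_le_right hc2pos.le hLS
  have hc2le : c2 ≤ 1 := hc2le'.trans ht0le
  have hpB : ∀ p ∈ closure V, ‖p‖ ≤ R0 := hR0'
  have hframe : ∀ p ∈ closure V, ∀ (t : ℝ) (lam : ℂ), 0 ≤ t →
      ‖(t : ℂ) • nu ρ p + lam • tau ρ p‖ ≤ M * (t + ‖lam‖) := by
    intro p hp t lam ht
    calc ‖(t : ℂ) • nu ρ p + lam • tau ρ p‖ ≤ ‖(t : ℂ) • nu ρ p‖ + ‖lam • tau ρ p‖ :=
          norm_add_le _ _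
      _ = t * ‖nu ρ p‖ + ‖lam‖ * ‖tau ρ p‖ := by
          rw [norm_smul, norm_smul, Complex.norm_real, Real.norm_eq_abs, abs_of_nonneg ht]
      _ ≤ t * M + ‖lam‖ * M := add_le_add
          (mul_le_mul_of_nonneg_left ((hM1' p hp).trans (le_max_left _ _)) ht)
          (mul_le_mul_of_nonneg_left ((hM2' p hp).trans (le_max_right _ _)) (norm_nonneg _))
      _ = M * (t + ‖lam‖) := by ring
  refine ⟨V, t0, c2, ⟨hV, hZV, hVc, fun p hp => (hVU hp).2, ht0pos, ht0le, hc2pos, hc2le,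
    ?_, ?_⟩, fun p hp => (hVU hp).1⟩
  · -- disc
    intro p hp t ht ht' hρ lam hlam
    set w := (t : ℂ) • nu ρ p + lam • tau ρ p with hw
    have e : p + (t : ℂ) • nu ρ p + lam • tau ρ p = p + w := by rw [hw]; abel
    rw [e]
    have hst : Real.sqrt t ^ 2 = t := Real.sq_sqrt ht.le
    have hsp := Real.sqrt_nonneg t
    have hs1 : Real.sqrt t ≤ 1 := by
      rw [Real.sqrt_le_left (by norm_num)]
      linarith
    have hw1 : ‖w‖ ≤ M * (t + ‖lam‖) := hframe p hp t lam ht.le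
    have hlam0 := norm_nonneg lam
    have hlam1 : ‖lam‖ ≤ 1 := hlam.trans (mul_le_one₀ hc2le hsp hs1)
    have hw2 : ‖w‖ ≤ 2 * M := by nlinarith
    have hpR : p ∈ closedBall (0 : C2) R := by
      rw [mem_closedBall_zero_iff]
      linarith [hpB p hp]
    have hpwR : p + w ∈ closedBall (0 : C2) R := by
      rw [mem_closedBall_zero_iff]
      linarith [hpB p hp, norm_add_le p w]
    have ht2 := taylor hs hC' hpR hpwR
    have hfr : fderiv ℝ ρ p w = -2 * t := apply_frame (hd p) (hVU hp).2 t lam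
    rw [hfr] at ht2
    have ht3 := (abs_le.1 ht2).2
    have hw3 : ‖w‖ * ‖w‖ ≤ M ^ 2 * (2 * (t ^ 2 + ‖lam‖ ^ 2)) := by
      have h5 : ‖w‖ * ‖w‖ ≤ (M * (t + ‖lam‖)) * (M * (t + ‖lam‖)) :=
        mul_self_le_mul_self (norm_nonneg _) hw1
      have h6 : (t + ‖lam‖) ^ 2 ≤ 2 * (t ^ 2 + ‖lam‖ ^ 2) := by nlinarith [sq_nonneg (t - ‖lam‖)]
      have h7 : (M * (t + ‖lam‖)) * (M * (t + ‖lam‖)) = M ^ 2 * (t + ‖lam‖) ^ 2 := by ring
      rw [h7] at h5
      exact h5.trans (mul_le_mul_of_nonneg_left h6 (by positivity))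
    have hlam2 : ‖lam‖ ^ 2 ≤ t0 * t := by
      have h5 : ‖lam‖ ^ 2 ≤ (c2 * Real.sqrt t) ^ 2 := pow_le_pow_left₀ hlam0 hlam 2
      rw [mul_pow, hst] at h5
      have h6 : c2 ^ 2 ≤ t0 := by nlinarith
      exact h5.trans (mul_le_mul_of_nonneg_right h6 ht.le)
    have ht4 : t ^ 2 ≤ t0 * t := by nlinarith
    have h8 : C * ‖w‖ * ‖w‖ ≤ t / 2 := by
      have h9 : ‖w‖ * ‖w‖ ≤ M ^ 2 * (4 * (t0 * t)) :=
        hw3.trans (mul_le_mul_of_nonneg_left (by linarith) (by positivity))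
      have h10 : C * (‖w‖ * ‖w‖) ≤ C * (M ^ 2 * (4 * (t0 * t))) :=
        mul_le_mul_of_nonneg_left h9 (by linarith)
      have h11 : C * (M ^ 2 * (4 * (t0 * t))) = 4 * t * (t0 * (C * M ^ 2)) := by ring
      rw [h11, ht0C] at h10
      linarith
    linarith
  · -- deep
    intro p hp hρ t ht ht' w hw
    set u := (t : ℂ) • nu ρ p + (0 : ℂ) • tau ρ p with hu
    have e : p + (t : ℂ) • nu ρ p + w = p + u + w := by
      rw [hu, zero_smul, add_zero]
    rw [e]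
    have hu1 : ‖u‖ ≤ M * t := by
      have := hframe p hp t 0 ht
      rwa [norm_zero, add_zero] at this
    have hu2 : ‖u‖ ≤ M := hu1.trans (by nlinarith)
    have hSp := hS' p hp
    have hw1 : ‖w‖ ≤ 1 := by
      have h5 : c2 * |ρ p| ≤ c2 * (L * S) := by
        refine mul_le_mul_of_nonneg_left (hSp.trans ?_) hc2pos.le
        exact le_mul_of_one_le_left (by linarith) hL
      linarith
    have hpR : p ∈ closedBall (0 : C2) R := by
      rw [mem_closedBall_zero_iff]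
      linarith [hpB p hp]
    have hpuR : p + u ∈ closedBall (0 : C2) R := by
      rw [mem_closedBall_zero_iff]
      linarith [hpB p hp, norm_add_le p u]
    have hpwR : p + u + w ∈ closedBall (0 : C2) R := by
      rw [mem_closedBall_zero_iff]
      linarith [hpB p hp, norm_add_le p u, norm_add_le (p + u) w]
    have ht2 := taylor hs hC' hpR hpuR
    have hfr : fderiv ℝ ρ p u = -2 * t := apply_frame (hd p) (hVU hp).2 t 0
    rw [hfr] at ht2
    have ht3 := (abs_le.1 ht2).2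
    have h8 : C * ‖u‖ * ‖u‖ ≤ t := by
      have h9 : ‖u‖ * ‖u‖ ≤ (M * t) * (M * t) := mul_self_le_mul_self (norm_nonneg _) hu1
      have h10 : C * (‖u‖ * ‖u‖) ≤ C * ((M * t) * (M * t)) :=
        mul_le_mul_of_nonneg_left h9 (by linarith)
      have h11 : C * ((M * t) * (M * t)) = (C * M ^ 2) * t * t := by ring
      have h12 : (C * M ^ 2) * t ≤ (C * M ^ 2) * t0 :=
        mul_le_mul_of_nonneg_left ht' (by positivity)
      have h13 : (C * M ^ 2) * t * t ≤ 1 / 8 * t := by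
        refine mul_le_mul_of_nonneg_right ?_ ht
        rw [mul_comm (C * M ^ 2) t0, ht0C] at h12
        exact h12
      linarith
    have h9 := hlip _ hpuR _ hpwR
    rw [add_sub_cancel_left] at h9
    have h10 := (abs_le.1 h9).2
    have h11 : L * ‖w‖ ≤ 1 / 8 * |ρ p| := by
      have h12 : L * c2 ≤ 1 / 8 := by
        have h13 : c2 * L ≤ c2 * (L * S) :=
          mul_le_mul_of_nonneg_left (le_mul_of_one_le_right (by linarith) hS) hc2pos.le
        have h14 : t0 ≤ 1 / 8 := by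
          rw [← ht0C]
          exact le_mul_of_one_le_right ht0pos.le hCM
        linarith
      calc L * ‖w‖ ≤ L * (c2 * |ρ p|) := mul_le_mul_of_nonneg_left hw (by linarith)
        _ = L * c2 * |ρ p| := by ring
        _ ≤ 1 / 8 * |ρ p| := mul_le_mul_of_nonneg_right h12 (abs_nonneg _)
    rw [abs_of_neg hρ] at h11
    linarith

end Pool.Agent.AK.H97
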