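import Pool.Agent.Helper60_AK.StmtF

set_option autoImplicit false

/-!
# AK module FIN, helper97: the assembly
-/

namespace Pool.Agent.AK.H97

open Complex Set Metric Filter Topology

theorem iter_sub {f g : C2 → ℂ} {x : C2} {j : ℕ} (hf : ContDiffAt ℝ (j : WithTop ℕ∞) f x)
    (hg : ContDiffAt ℝ (j : WithTop ℕ∞) g x) : iteratedFDeriv ℝ j (fun z => f z - g z) x =
      iteratedFDeriv ℝ j f x - iteratedFDeriv ℝ j g x := by
  exact iteratedFDeriv_sub_apply hf hg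

theorem fin : FinStmt := by
  intro hN hS hF Ω ρ hρ hΩ hb hc hgr hlevi k hk f hf hfk ε hε
  subst hΩ
  obtain ⟨ρ', κ₀, U, hn, hU, hU1, hU2, hU3, hU4⟩ := hN 2 (by norm_num) ρ hρ hb hgr hlevi
  have hd : SmoothDom {z | ρ z < 0} ρ' := ⟨hn.smooth, hU4.symm, hb, hc, fun p hp =>
    hn.reg p (by rw [hp, abs_zero]; exact hn.pos)⟩
  obtain ⟨M, κ₁, c, h1, h2, h3, h4⟩ := hS 2 (by norm_num) ρ' κ₀ hn k
  obtain ⟨κ, k1, k2, F, f1, f2, f3⟩ := hF {z | ρ z < 0} ρ' f k hd hn.cpt hk hf hfk M (ε / 4)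
    (min κ₁ (ε / 4)) c (by positivity) (lt_min h1 (by positivity)) h3
  obtain ⟨s1, s2⟩ := h4 κ k1 (k2.trans (min_le_left _ _))
  have hmax : max 1 k = k := max_eq_right hk
  obtain ⟨g, g1, g2, g3⟩ := s2 F (by rw [hmax]; exact f1) (fun z hz j => by
    have e : Pool.Agent.DK.dbar j F z = dzb j F z := by
      unfold Pool.Agent.DK.dbar dzb
      rw [smul_eq_mul, smul_eq_mul]
      ring
    rw [e]
    exact f2 z hz j)
  rw [hU4] at g2
  refine ⟨g, g2, g1.contDiffOn, fun j hj x hx => ?_⟩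
  have hx' : ρ' x < 0 := by
    have : x ∈ {z | ρ' z < 0} := by rw [hU4]; exact hx
    exact this
  have hopen : IsOpen {z | ρ z < 0} := isOpen_lt hρ.continuous continuous_const
  have hjk : (j : WithTop ℕ∞) ≤ (k : WithTop ℕ∞) := by exact_mod_cast hj
  have hfx : ContDiffAt ℝ (j : WithTop ℕ∞) f x :=
    ((hfk.mono subset_closure).contDiffAt (hopen.mem_nhds hx)).of_le hjk
  have hgx : ContDiffAt ℝ (j : WithTop ℕ∞) g x :=
    g1.contDiffAt.of_le (by exact_mod_cast le_top)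
  rw [iter_sub hfx hgx]
  have h5 := g3 j hj x hx' (iteratedFDeriv ℝ j f x) (ε / 4) (fun y hy =>
    f3 j hj x hx' y hy (s1 x hx' hy))
  have h6 : κ ≤ ε / 4 := k2.trans (min_le_right _ _)
  rw [norm_sub_rev]
  exact lt_of_le_of_lt h5 (by linarith)

end Pool.Agent.AK.H97
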